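import Mathlib
import Pool.Agent.W668.Uni.Stmts2

/-!
# Landsberg unicorn: derivatives of a periodic family of solutions
-/

set_option autoImplicit false

open Set Filter Topology
open scoped ContDiff

namespace Pool.Agent.W339.Uni

noncomputable section

open Pool.Agent.W668.Uni (PerData dx)

/-- the plane -/
abbrev V2 := Fin 2 → ℝ

/-- the plane times the angle -/
abbrev P3 := (Fin 2 → ℝ) × ℝ

/-- derivative in a fixed direction -/
def dv (S : P3 → ℝ) (w : P3) : P3 → ℝ := fun p => fderiv ℝ S p w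

/-- the basis vector -/
def ee (i : Fin 2) : V2 := Pi.single i 1

theorem dv_smooth {S : P3 → ℝ} (hS : ContDiff ℝ ∞ S) (w : P3) : ContDiff ℝ ∞ (dv S w) := by
  unfold dv
  exact (hS.fderiv_right (m := ∞) le_rfl).clm_apply contDiff_const

theorem dv_comm {S : P3 → ℝ} (hS : ContDiff ℝ ∞ S) (v w : P3) (p : P3) :
    dv (dv S v) w p = dv (dv S w) v p := by
  have h1 : DifferentiableAt ℝ (fderiv ℝ S) p :=
    ((hS.fderiv_right (m := ∞) le_rfl).differentiable (by simp)) p
  have h2 : ∀ u z : P3, fderiv ℝ (fun p => fderiv ℝ S p u) p z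
      = fderiv ℝ (fderiv ℝ S) p z u := by
    intro u z
    rw [fderiv_clm_apply h1 (differentiableAt_const u)]
    simp
  have h3 : IsSymmSndFDerivAt ℝ S p := by
    refine (hS.contDiffAt (x := p)).isSymmSndFDerivAt ?_
    simp only [minSmoothness_of_isRCLikeNormedField]
    exact WithTop.coe_le_coe.2 (le_top : (2 : ℕ∞) ≤ ⊤)
  unfold dv
  rw [h2, h2]
  exact h3.eq w v

/-- derivative along the angle -/
theorem dv_theta {S : P3 → ℝ} (hS : ContDiff ℝ ∞ S) (x : V2) (θ : ℝ) :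
    HasDerivAt (fun s => S (x, s)) (dv S (0, 1) (x, θ)) θ := by
  have h1 : HasFDerivAt S (fderiv ℝ S (x, θ)) (x, θ) :=
    (hS.differentiable (by simp) (x, θ)).hasFDerivAt
  have h2 : HasDerivAt (fun s : ℝ => ((x, s) : P3)) ((0 : V2), (1 : ℝ)) θ :=
    (hasDerivAt_const θ x).prodMk (hasDerivAt_id θ)
  exact h1.comp_hasDerivAt θ h2

/-- derivative along the plane -/
theorem dv_plane {S : P3 → ℝ} (hS : ContDiff ℝ ∞ S) (x : V2) (θ : ℝ) (y : V2) :
    dv S (y, 0) (x, θ) = fderiv ℝ (fun z => S (z, θ)) x y := by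
  have h1 : HasFDerivAt S (fderiv ℝ S (x, θ)) (x, θ) :=
    (hS.differentiable (by simp) (x, θ)).hasFDerivAt
  have h2 : HasFDerivAt (fun z : V2 => ((z, θ) : P3))
      (ContinuousLinearMap.inl ℝ V2 ℝ) x := hasFDerivAt_prodMk_left x θ
  have h3 := (h1.comp x h2).fderiv
  have h4 : (S ∘ fun z : V2 => ((z, θ) : P3)) = fun z => S (z, θ) := rfl
  rw [h4] at h3
  rw [h3]
  simp [dv]

theorem dv_add_dir (S : P3 → ℝ) (p : P3) (y : V2) :
    dv S (y, 0) p = y 0 * dv S (ee 0, 0) p + y 1 * dv S (ee 1, 0) p := by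
  have e : ((y, 0) : P3) = y 0 • ((ee 0, 0) : P3) + y 1 • ((ee 1, 0) : P3) := by
    ext i
    · fin_cases i <;> simp [ee]
    · simp
  unfold dv
  rw [e, map_add, map_smul, map_smul]
  rfl

section Data

variable {f Φ : ℝ → ℝ} {L : ℝ} {U : Set V2} {S T : P3 → ℝ}

theorem dvS_one (h : PerData f Φ L U S T) : dv S (0, 1) = T := by
  funext p
  obtain ⟨x, θ⟩ := p
  exact (dv_theta h.S_smooth x θ).unique (h.S_der x θ)

theorem dvT_one (h : PerData f Φ L U S T) : dv T (0, 1) = fun p => Φ (T p) - S p := by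
  funext p
  obtain ⟨x, θ⟩ := p
  exact (dv_theta h.T_smooth x θ).unique (h.T_der x θ)

/-- derivative of `f ∘ T * B - A` type functions -/
theorem dv_PhiT (h : PerData f Φ L U S T) (w p : P3) :
    dv (fun p => Φ (T p) - S p) w p = f (T p) * dv T w p - dv S w p := by
  have h1 : HasFDerivAt T (fderiv ℝ T p) p := (h.T_smooth.differentiable (by simp) p).hasFDerivAt
  have h2 : HasFDerivAt S (fderiv ℝ S p) p := (h.S_smooth.differentiable (by simp) p).hasFDerivAt
  have h3 : HasFDerivAt (fun p => Φ (T p)) (f (T p) • fderiv ℝ T p) p :=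
    (h.Φ_der (T p)).comp_hasFDerivAt p h1
  have h4 := (h3.sub h2).fderiv
  unfold dv
  change fderiv ℝ ((fun p => Φ (T p)) - S) p w = _
  rw [h4]
  simp

theorem dv_fTB (h : PerData f Φ L U S T) {B A : P3 → ℝ} (hB : ContDiff ℝ ∞ B)
    (hA : ContDiff ℝ ∞ A) (w p : P3) :
    dv (fun p => f (T p) * B p - A p) w p
      = deriv f (T p) * dv T w p * B p + f (T p) * dv B w p - dv A w p := by
  have h1 : HasFDerivAt T (fderiv ℝ T p) p := (h.T_smooth.differentiable (by simp) p).hasFDerivAt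
  have h2 : HasFDerivAt A (fderiv ℝ A p) p := (hA.differentiable (by simp) p).hasFDerivAt
  have h2' : HasFDerivAt B (fderiv ℝ B p) p := (hB.differentiable (by simp) p).hasFDerivAt
  have hf : HasDerivAt f (deriv f (T p)) (T p) :=
    (h.f_smooth.differentiable (by simp) (T p)).hasDerivAt
  have h3 : HasFDerivAt (fun p => f (T p)) (deriv f (T p) • fderiv ℝ T p) p :=
    hf.comp_hasFDerivAt p h1
  have h4 := ((h3.mul h2').sub h2).fderiv
  unfold dv
  change fderiv ℝ (((fun p => f (T p)) * B) - A) p w = _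
  rw [h4]
  simp
  ring

/-- `∂_i S` -/
def aa (S : P3 → ℝ) (i : Fin 2) : P3 → ℝ := dv S (ee i, 0)

/-- `∂_j ∂_i S` -/
def uu (S : P3 → ℝ) (i j : Fin 2) : P3 → ℝ := dv (aa S i) (ee j, 0)

theorem aa_smooth {S : P3 → ℝ} (hS : ContDiff ℝ ∞ S) (i : Fin 2) : ContDiff ℝ ∞ (aa S i) :=
  dv_smooth hS _

theorem uu_smooth {S : P3 → ℝ} (hS : ContDiff ℝ ∞ S) (i j : Fin 2) : ContDiff ℝ ∞ (uu S i j) :=
  dv_smooth (aa_smooth hS i) _

theorem uu_symm {S : P3 → ℝ} (hS : ContDiff ℝ ∞ S) (i j : Fin 2) : uu S i j = uu S j i := by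
  funext p
  exact dv_comm hS _ _ p

theorem aS_theta (h : PerData f Φ L U S T) (i : Fin 2) (x : V2) (θ : ℝ) :
    HasDerivAt (fun s => aa S i (x, s)) (aa T i (x, θ)) θ := by
  have h1 := dv_theta (aa_smooth h.S_smooth i) x θ
  have h2 : dv (aa S i) (0, 1) (x, θ) = aa T i (x, θ) := by
    unfold aa
    rw [dv_comm h.S_smooth, dvS_one h]
  rwa [h2] at h1

theorem aT_theta (h : PerData f Φ L U S T) (i : Fin 2) (x : V2) (θ : ℝ) :
    HasDerivAt (fun s => aa T i (x, s))
      (f (T (x, θ)) * aa T i (x, θ) - aa S i (x, θ)) θ := by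
  have h1 := dv_theta (aa_smooth h.T_smooth i) x θ
  have h2 : dv (aa T i) (0, 1) (x, θ) = f (T (x, θ)) * aa T i (x, θ) - aa S i (x, θ) := by
    unfold aa
    rw [dv_comm h.T_smooth, dvT_one h, dv_PhiT h]
  rwa [h2] at h1

theorem dvaT (h : PerData f Φ L U S T) (i : Fin 2) :
    dv (aa T i) (0, 1) = fun p => f (T p) * aa T i p - aa S i p := by
  funext p
  unfold aa
  rw [dv_comm h.T_smooth, dvT_one h, dv_PhiT h]

theorem dvaS (h : PerData f Φ L U S T) (i : Fin 2) :
    dv (aa S i) (0, 1) = aa T i := by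
  funext p
  unfold aa
  rw [dv_comm h.S_smooth, dvS_one h]

theorem uS_theta (h : PerData f Φ L U S T) (i j : Fin 2) (x : V2) (θ : ℝ) :
    HasDerivAt (fun s => uu S i j (x, s)) (uu T i j (x, θ)) θ := by
  have h1 := dv_theta (uu_smooth h.S_smooth i j) x θ
  have h2 : dv (uu S i j) (0, 1) (x, θ) = uu T i j (x, θ) := by
    unfold uu
    rw [dv_comm (aa_smooth h.S_smooth i), dvaS h]
  rwa [h2] at h1

theorem uT_theta (h : PerData f Φ L U S T) (i j : Fin 2) (x : V2) (θ : ℝ) :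
    HasDerivAt (fun s => uu T i j (x, s))
      (deriv f (T (x, θ)) * aa T j (x, θ) * aa T i (x, θ) + f (T (x, θ)) * uu T i j (x, θ)
        - uu S i j (x, θ)) θ := by
  have h1 := dv_theta (uu_smooth h.T_smooth i j) x θ
  have h2 : dv (uu T i j) (0, 1) (x, θ) = deriv f (T (x, θ)) * aa T j (x, θ) * aa T i (x, θ)
      + f (T (x, θ)) * uu T i j (x, θ) - uu S i j (x, θ) := by
    unfold uu
    rw [dv_comm (aa_smooth h.T_smooth i), dvaT h,
      dv_fTB h (aa_smooth h.T_smooth i) (aa_smooth h.S_smooth i)]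
    rfl
  rwa [h2] at h1

/-- Wronskian -/
def wr (S T : P3 → ℝ) (p : P3) : ℝ := aa S 0 p * aa T 1 p - aa S 1 p * aa T 0 p

theorem wr_theta (h : PerData f Φ L U S T) (x : V2) (θ : ℝ) :
    HasDerivAt (fun s => wr S T (x, s)) (f (T (x, θ)) * wr S T (x, θ)) θ := by
  have h1 := ((aS_theta h 0 x θ).mul (aT_theta h 1 x θ)).sub
    ((aS_theta h 1 x θ).mul (aT_theta h 0 x θ))
  refine h1.congr_deriv ?_
  unfold wr
  ring

theorem wr_zero (h : PerData f Φ L U S T) (x : V2) : wr S T (x, 0) = 1 := by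
  have hS : ∀ y : V2, dv S (y, 0) (x, 0) = y 0 := by
    intro y
    rw [dv_plane h.S_smooth]
    have e : (fun z : V2 => S (z, 0)) = fun z => z 0 := by
      funext z
      exact h.S_zero z
    rw [e]
    have := (ContinuousLinearMap.proj (R := ℝ) (φ := fun _ : Fin 2 => ℝ) 0).hasFDerivAt (x := x)
    have h2 := this.fderiv
    have e2 : (⇑(ContinuousLinearMap.proj (R := ℝ) (φ := fun _ : Fin 2 => ℝ) 0))
      = fun z : V2 => z 0 := rfl
    rw [e2] at h2
    rw [h2]
    rfl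
  have hT : ∀ y : V2, dv T (y, 0) (x, 0) = y 1 := by
    intro y
    rw [dv_plane h.T_smooth]
    have e : (fun z : V2 => T (z, 0)) = fun z => z 1 := by
      funext z
      exact h.T_zero z
    rw [e]
    have := (ContinuousLinearMap.proj (R := ℝ) (φ := fun _ : Fin 2 => ℝ) 1).hasFDerivAt (x := x)
    have h2 := this.fderiv
    have e2 : (⇑(ContinuousLinearMap.proj (R := ℝ) (φ := fun _ : Fin 2 => ℝ) 1))
      = fun z : V2 => z 1 := rfl
    rw [e2] at h2
    rw [h2]
    rfl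
  unfold wr aa
  rw [hS, hS, hT, hT]
  simp [ee]

theorem wr_pos (h : PerData f Φ L U S T) (x : V2) (θ : ℝ) : 0 < wr S T (x, θ) := by
  have hc : Continuous (fun s => f (T (x, s))) :=
    h.f_smooth.continuous.comp (h.T_smooth.continuous.comp (by fun_prop))
  have hH : ∀ θ : ℝ, HasDerivAt (fun t => ∫ s in (0 : ℝ)..t, f (T (x, s))) (f (T (x, θ))) θ :=
    fun θ => intervalIntegral.integral_hasDerivAt_right (hc.intervalIntegrable _ _)
      (hc.stronglyMeasurableAtFilter _ _) hc.continuousAt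
  have hg : ∀ θ : ℝ, HasDerivAt (fun t => wr S T (x, t) *
      Real.exp (-(∫ s in (0 : ℝ)..t, f (T (x, s))))) 0 θ := by
    intro θ
    have h1 := (wr_theta h x θ).mul ((hH θ).neg.exp)
    refine h1.congr_deriv ?_
    ring
  have hconst := is_const_of_deriv_eq_zero (f := fun t => wr S T (x, t) *
      Real.exp (-(∫ s in (0 : ℝ)..t, f (T (x, s)))))
    (fun t => (hg t).differentiableAt) (fun t => (hg t).deriv) θ 0
  simp only [intervalIntegral.integral_same, neg_zero, Real.exp_zero, mul_one] at hconst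
  rw [wr_zero h] at hconst
  by_contra hcon
  push Not at hcon
  have : wr S T (x, θ) * Real.exp (-(∫ s in (0 : ℝ)..θ, f (T (x, s)))) ≤ 0 :=
    mul_nonpos_of_nonpos_of_nonneg hcon (Real.exp_pos _).le
  linarith

end Data

end

end Pool.Agent.W339.Uni
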