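import Pool.Agent.W339.Uni.Geo

/-!
# Landsberg unicorn: a periodic family of solutions gives a Landsberg metric which is not Berwald
-/

set_option autoImplicit false

open Set Filter Topology
open scoped ContDiff

namespace Pool.Agent.W339.Uni

noncomputable section

open Pool.Agent.W668.Uni (PerData dx P_per P_theta2)

/-- the positive statement S13671 (spelled out) -/
def LandsbergBerwald : Prop :=
    ∀ (n : ℕ) (U : Set (Fin n → ℝ)) (F : (Fin n → ℝ) → (Fin n → ℝ) → ℝ)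
      (G : (Fin n → ℝ) → (Fin n → ℝ) → (Fin n → ℝ)),
      IsOpen U →
      ContDiffOn ℝ ((⊤ : ℕ∞) : WithTop ℕ∞)
        (fun p : (Fin n → ℝ) × (Fin n → ℝ) => F p.1 p.2) (U ×ˢ {y | y ≠ 0}) →
      (∀ x ∈ U, ∀ y : Fin n → ℝ, y ≠ 0 → 0 < F x y) →
      (∀ x ∈ U, ∀ y : Fin n → ℝ, ∀ t : ℝ, 0 < t → F x (t • y) = t * F x y) →
      (∀ x ∈ U, ∀ y : Fin n → ℝ, y ≠ 0 → ∀ v : Fin n → ℝ, v ≠ 0 →
        0 < ∑ i : Fin n, ∑ j : Fin n,
          (1 / 2 : ℝ) * fderiv ℝ (fun w => fderiv ℝ (fun u => F x u ^ 2) w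
              (Pi.single j (1 : ℝ) : Fin n → ℝ)) y (Pi.single i (1 : ℝ) : Fin n → ℝ)
            * v i * v j) →
      (∀ x ∈ U, ∀ y : Fin n → ℝ, y ≠ 0 → ∀ l : Fin n,
        ∑ i : Fin n,
          (1 / 2 : ℝ) * fderiv ℝ (fun w => fderiv ℝ (fun u => F x u ^ 2) w
              (Pi.single i (1 : ℝ) : Fin n → ℝ)) y (Pi.single l (1 : ℝ) : Fin n → ℝ)
            * G x y i
        = (1 / 4 : ℝ) * ((∑ k : Fin n,
              fderiv ℝ (fun z => fderiv ℝ (fun u => F z u ^ 2) y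
                (Pi.single l (1 : ℝ) : Fin n → ℝ)) x (Pi.single k (1 : ℝ) : Fin n → ℝ) * y k)
            - fderiv ℝ (fun z => F z y ^ 2) x (Pi.single l (1 : ℝ) : Fin n → ℝ))) →
      (∀ x ∈ U, ∀ y : Fin n → ℝ, y ≠ 0 → ∀ j k l : Fin n,
        ∑ i : Fin n,
          ((1 / 2 : ℝ) * fderiv ℝ (fun u => F x u ^ 2) y (Pi.single i (1 : ℝ) : Fin n → ℝ))
          * fderiv ℝ (fun w₂ => fderiv ℝ (fun w₁ => fderiv ℝ (fun u => G x u i) w₁
                (Pi.single l (1 : ℝ) : Fin n → ℝ)) w₂ (Pi.single k (1 : ℝ) : Fin n → ℝ)) y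
              (Pi.single j (1 : ℝ) : Fin n → ℝ) = 0) →
      ∀ x ∈ U, ∀ y : Fin n → ℝ, y ≠ 0 → ∀ i j k l : Fin n,
        fderiv ℝ (fun w₂ => fderiv ℝ (fun w₁ => fderiv ℝ (fun u => G x u i) w₁
              (Pi.single l (1 : ℝ) : Fin n → ℝ)) w₂ (Pi.single k (1 : ℝ) : Fin n → ℝ)) y
            (Pi.single j (1 : ℝ) : Fin n → ℝ) = 0

/-- periodicity of `T` -/
theorem T_per {f Φ : ℝ → ℝ} {L : ℝ} {U : Set V2} {S T : P3 → ℝ} (h : PerData f Φ L U S T)
    {x : V2} (hx : x ∈ U) (θ : ℝ) : T (x, θ + L) = T (x, θ) := by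
  have h1 : HasDerivAt (fun s => S (x, s + L)) (T (x, θ + L)) θ := by
    have := (h.S_der x (θ + L)).comp_add_const θ L
    exact this
  have h2 : (fun s => S (x, s + L)) = fun s => S (x, s) := by
    funext s
    exact h.per x hx s
  rw [h2] at h1
  exact h1.unique (h.S_der x θ)

theorem T_per_nat {f Φ : ℝ → ℝ} {L : ℝ} {U : Set V2} {S T : P3 → ℝ}
    (h : PerData f Φ L U S T) {x : V2} (hx : x ∈ U) (n : ℕ) (θ : ℝ) :
    T (x, θ + n * L) = T (x, θ) := by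
  induction n with
  | zero => simp
  | succ n ih =>
    have e : θ + ((n + 1 : ℕ) : ℝ) * L = (θ + n * L) + L := by push_cast; ring
    rw [e, T_per h hx, ih]

theorem T_per_int {f Φ : ℝ → ℝ} {L : ℝ} {U : Set V2} {S T : P3 → ℝ}
    (h : PerData f Φ L U S T) {x : V2} (hx : x ∈ U) (n : ℤ) (θ : ℝ) :
    T (x, θ + n * L) = T (x, θ) := by
  obtain ⟨m, rfl | rfl⟩ := n.eq_nat_or_neg
  · exact_mod_cast T_per_nat h hx m θ
  · have := T_per_nat h hx m (θ + ((-(m : ℤ) : ℤ) : ℝ) * L)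
    rw [← this]
    congr 2
    push_cast
    ring

theorem final (hper : P_per) (hth : P_theta2) : ¬ LandsbergBerwald := by
  intro hLB
  obtain ⟨f, Φ, L, U, S, T, h⟩ := hper
  obtain ⟨⟨F, hhom, hcrit, hloc⟩, huniq⟩ := hth f Φ L U S T h
  -- local data
  have hD : ∀ x ∈ U, ∀ y : V2, y ≠ 0 → ∃ (W : Set (V2 × V2)) (ϑ : V2 × V2 → ℝ),
      (x, y) ∈ W ∧ LocData f Φ L U S T F W ϑ := by
    intro x hx y hy
    obtain ⟨W, ϑ, hW, hm, hs, hq⟩ := hloc x hx y hy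
    exact ⟨W, ϑ, hm, ⟨h, hW, hs, fun q hq' => (hq q hq').2.1, fun q hq' => (hq q hq').2.2.1,
      fun q hq' => (hq q hq').2.2.2⟩⟩
  have hpos : ∀ x ∈ U, ∀ y : V2, y ≠ 0 → 0 < F x y := by
    intro x hx y hy
    obtain ⟨W, ϑ, hm, H⟩ := hD x hx y hy
    exact H.pos _ hm
  have hsmooth : ContDiffOn ℝ ((⊤ : ℕ∞) : WithTop ℕ∞)
        (fun p : V2 × V2 => F p.1 p.2) (U ×ˢ {y | y ≠ 0}) := by
    rintro ⟨x, y⟩ ⟨hx, hy⟩
    obtain ⟨W, ϑ, hm, H⟩ := hD x hx y hy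
    have hϑ : ContDiffAt ℝ ∞ ϑ (x, y) := H.smooth.contDiffAt (H.opn.mem_nhds hm)
    have hpt : ContDiffAt ℝ ∞ (fun p : V2 × V2 => ((p.1, ϑ p) : P3)) (x, y) :=
      contDiffAt_fst.prodMk hϑ
    have hc : ∀ i : Fin 2, ContDiffAt ℝ ∞ (fun p : V2 × V2 => p.2 i) (x, y) := by
      intro i
      have : ContDiff ℝ ∞ (fun p : V2 × V2 => p.2 i) :=
        (contDiff_pi.1 contDiff_snd) i
      exact this.contDiffAt
    have ha : ∀ i : Fin 2, ContDiffAt ℝ ∞ (fun p : V2 × V2 => aa S i (p.1, ϑ p)) (x, y) := by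
      intro i
      exact ContDiffAt.comp (g := aa S i) (f := fun p : V2 × V2 => ((p.1, ϑ p) : P3)) (x, y)
        (aa_smooth h.S_smooth i).contDiffAt hpt
    have hall : ContDiffAt ℝ ∞ (fun p : V2 × V2 => p.2 0 * aa S 0 (p.1, ϑ p)
        + p.2 1 * aa S 1 (p.1, ϑ p)) (x, y) :=
      ((hc 0).mul (ha 0)).add ((hc 1).mul (ha 1))
    refine ContDiffAt.contDiffWithinAt ?_
    refine hall.congr_of_eventuallyEq ?_
    filter_upwards [H.opn.mem_nhds hm] with q hq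
    exact H.F_form (x := q.1) (y := q.2) hq
  -- strong convexity
  have hconv : ∀ x ∈ U, ∀ y : V2, y ≠ 0 → ∀ v : V2, v ≠ 0 →
        0 < ∑ i : Fin 2, ∑ j : Fin 2, gm F x y j i * v i * v j := by
    intro x hx y hy v hv
    obtain ⟨W, ϑ, hm, H⟩ := hD x hx y hy
    simp only [Fin.sum_univ_two, H.gm_eq hm]
    have hw := wr_pos h x (ϑ (x, y))
    unfold wr at hw
    set a0 := aa S 0 (x, ϑ (x, y))
    set a1 := aa S 1 (x, ϑ (x, y))
    set b0 := aa T 0 (x, ϑ (x, y))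
    set b1 := aa T 1 (x, ϑ (x, y))
    have e : (a0 * a0 + b0 * b0) * v 0 * v 0 + (a1 * a0 + b1 * b0) * v 0 * v 1
        + ((a0 * a1 + b0 * b1) * v 1 * v 0 + (a1 * a1 + b1 * b1) * v 1 * v 1)
        = (a0 * v 0 + a1 * v 1) ^ 2 + (b0 * v 0 + b1 * v 1) ^ 2 := by ring
    rw [e]
    by_contra hcon
    push Not at hcon
    have q1 := sq_nonneg (a0 * v 0 + a1 * v 1)
    have q2 := sq_nonneg (b0 * v 0 + b1 * v 1)
    have h1 : a0 * v 0 + a1 * v 1 = 0 := by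
      have : (a0 * v 0 + a1 * v 1) ^ 2 = 0 := by linarith
      exact pow_eq_zero_iff (two_ne_zero) |>.1 this
    have h2 : b0 * v 0 + b1 * v 1 = 0 := by
      have : (b0 * v 0 + b1 * v 1) ^ 2 = 0 := by linarith
      exact pow_eq_zero_iff (two_ne_zero) |>.1 this
    have h3 : v 0 = 0 := by
      have : (a0 * b1 - a1 * b0) * v 0 = 0 := by linear_combination b1 * h1 - a1 * h2
      exact (mul_eq_zero.1 this).resolve_left hw.ne'
    have h4 : v 1 = 0 := by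
      have : (a0 * b1 - a1 * b0) * v 1 = 0 := by linear_combination a0 * h2 - b0 * h1
      exact (mul_eq_zero.1 this).resolve_left hw.ne'
    exact hv (by ext i; fin_cases i <;> simp [h3, h4])
  -- spray equation
  have hspray : ∀ x ∈ U, ∀ y : V2, y ≠ 0 → ∀ l : Fin 2,
      ∑ i : Fin 2, gm F x y i l * GG F x y i = rh F x y l := by
    intro x hx y hy l
    obtain ⟨W, ϑ, hm, H⟩ := hD x hx y hy
    have hw := wr_pos h x (ϑ (x, y))
    have hdt : dt F x y ≠ 0 := by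
      rw [H.dt_eq hm]
      exact pow_ne_zero 2 hw.ne'
    simp only [Fin.sum_univ_two, GG, Matrix.cons_val_zero, Matrix.cons_val_one]
    rw [mul_div_assoc', mul_div_assoc', ← add_div, div_eq_iff hdt]
    unfold dt
    fin_cases l <;> simp <;> ring
  -- Landsberg
  have hland : ∀ x ∈ U, ∀ y : V2, y ≠ 0 → ∀ j k l : Fin 2,
      ∑ i : Fin 2, ((1 / 2 : ℝ) * fderiv ℝ (fun u => F x u ^ 2) y (ee i))
          * fderiv ℝ (fun w₂ => fderiv ℝ (fun w₁ => fderiv ℝ (fun u => GG F x u i) w₁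
                (ee l)) w₂ (ee k)) y (ee j) = 0 := by
    intro x hx y hy j k l
    obtain ⟨W, ϑ, hm, H⟩ := hD x hx y hy
    simp only [Fin.sum_univ_two, H.G3 hm, H.F2_y hm, cr, Matrix.cons_val_zero,
      Matrix.cons_val_one]
    ring
  -- the point
  obtain ⟨x, hx, θ, hT⟩ := h.pt
  have hw := wr_pos h x θ
  set y : V2 := ![aa T 1 (x, θ) / wr S T (x, θ), -aa T 0 (x, θ) / wr S T (x, θ)] with hydef
  have hy0 : y 0 = aa T 1 (x, θ) / wr S T (x, θ) := rfl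
  have hy1 : y 1 = -aa T 0 (x, θ) / wr S T (x, θ) := rfl
  have hS1 : dx S x θ y = 1 := by
    rw [dx_eq, hy0, hy1]
    have : aa T 1 (x, θ) / wr S T (x, θ) * aa S 0 (x, θ)
        + -aa T 0 (x, θ) / wr S T (x, θ) * aa S 1 (x, θ) = wr S T (x, θ) / wr S T (x, θ) := by
      unfold wr
      ring
    rw [this, div_self hw.ne']
  have hT0 : dx T x θ y = 0 := by
    rw [dx_eq, hy0, hy1]
    ring
  have hyne : y ≠ 0 := by
    intro hcon
    rw [hcon] at hS1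
    rw [dx_eq] at hS1
    simp at hS1
  obtain ⟨W, ϑ, hm, H⟩ := hD x hx y hyne
  have hT' : T (x, ϑ (x, y)) = 0 := by
    obtain ⟨n, hn⟩ := huniq x hx θ (ϑ (x, y)) y hT0 (by rw [hS1]; norm_num)
      (H.zero _ hm) (by have := H.F_eq _ hm; simp only at this; rw [← this]; exact H.pos _ hm)
    rw [hn, T_per_int h hx, hT]
  have hB := hLB 2 U F (GG F) h.U_open hsmooth hpos hhom
    (fun x hx y hy v hv => hconv x hx y hy v hv) (fun x hx y hy l => hspray x hx y hy l)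
    (fun x hx y hy j k l => hland x hx y hy j k l) x hx y hyne
  have hB' : ∀ i j k l : Fin 2, cr S T 0 (deriv f 0 * aa T k (x, ϑ (x, y))
      * aa T l (x, ϑ (x, y)) * (aa T j (x, ϑ (x, y)) / F x y)) (x, ϑ (x, y)) i = 0 := by
    intro i j k l
    have h1 := H.G3 hm i l k j
    rw [hT'] at h1
    rw [← h1]
    exact hB i j k l
  have hF := H.pos _ hm
  simp only at hF
  have hw2 := wr_pos h x (ϑ (x, y))
  have hfd := h.f_der
  have key : ∀ m : Fin 2, aa T m (x, ϑ (x, y)) = 0 := by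
    intro m
    by_contra hne
    have h0 := hB' 0 m m m
    have h1 := hB' 1 m m m
    simp only [cr, Matrix.cons_val_zero, Matrix.cons_val_one] at h0 h1
    rw [div_eq_zero_iff, or_iff_left hw2.ne'] at h0 h1
    have hβ : deriv f 0 * aa T m (x, ϑ (x, y)) * aa T m (x, ϑ (x, y))
        * (aa T m (x, ϑ (x, y)) / F x y) ≠ 0 := by
      have := div_ne_zero hne hF.ne'
      exact mul_ne_zero (mul_ne_zero (mul_ne_zero hfd hne) hne) this
    have hs1 : aa S 1 (x, ϑ (x, y)) = 0 := by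
      have : deriv f 0 * aa T m (x, ϑ (x, y)) * aa T m (x, ϑ (x, y))
        * (aa T m (x, ϑ (x, y)) / F x y) * aa S 1 (x, ϑ (x, y)) = 0 := by
        linear_combination -h0
      exact (mul_eq_zero.1 this).resolve_left hβ
    have hs0 : aa S 0 (x, ϑ (x, y)) = 0 := by
      have : deriv f 0 * aa T m (x, ϑ (x, y)) * aa T m (x, ϑ (x, y))
        * (aa T m (x, ϑ (x, y)) / F x y) * aa S 0 (x, ϑ (x, y)) = 0 := by
        linear_combination h1
      exact (mul_eq_zero.1 this).resolve_left hβ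
    unfold wr at hw2
    rw [hs0, hs1] at hw2
    simp at hw2
  unfold wr at hw2
  rw [key 0, key 1] at hw2
  simp at hw2

end

end Pool.Agent.W339.Uni
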