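import Pool.Agent.W339.Uni.Loc

/-!
# Landsberg unicorn: the spray coefficients and their derivatives
-/

set_option autoImplicit false

open Set Filter Topology
open scoped ContDiff

namespace Pool.Agent.W339.Uni

noncomputable section

open Pool.Agent.W668.Uni (PerData dx)

/-- fundamental tensor -/
def gm (F : V2 → V2 → ℝ) (x y : V2) (i l : Fin 2) : ℝ :=
  (1 / 2 : ℝ) * fderiv ℝ (fun w => fderiv ℝ (fun u => F x u ^ 2) w (ee i)) y (ee l)

/-- right-hand side of the spray equation -/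
def rh (F : V2 → V2 → ℝ) (x y : V2) (l : Fin 2) : ℝ :=
  (1 / 4 : ℝ) * ((∑ k : Fin 2,
      fderiv ℝ (fun z => fderiv ℝ (fun u => F z u ^ 2) y (ee l)) x (ee k) * y k)
    - fderiv ℝ (fun z => F z y ^ 2) x (ee l))

/-- determinant -/
def dt (F : V2 → V2 → ℝ) (x y : V2) : ℝ :=
  gm F x y 0 0 * gm F x y 1 1 - gm F x y 1 0 * gm F x y 0 1

/-- spray coefficients -/
def GG (F : V2 → V2 → ℝ) (x y : V2) : V2 :=
  ![(rh F x y 0 * gm F x y 1 1 - gm F x y 1 0 * rh F x y 1) / dt F x y,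
    (gm F x y 0 0 * rh F x y 1 - gm F x y 0 1 * rh F x y 0) / dt F x y]

/-- the vector `G` with `a·G = α`, `b·G = β` -/
def cr (S T : P3 → ℝ) (α β : ℝ) (p : P3) : V2 :=
  ![(α * aa T 1 p - β * aa S 1 p) / wr S T p, (β * aa S 0 p - α * aa T 0 p) / wr S T p]

/-- linear form -/
def li (K : P3 → ℝ) (p : P3) (y : V2) (l : Fin 2) : ℝ := uu K l 0 p * y 0 + uu K l 1 p * y 1

/-- quadratic form -/
def qu (K : P3 → ℝ) (p : P3) (y : V2) : ℝ := y 0 * li K p y 0 + y 1 * li K p y 1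

section

variable {f Φ : ℝ → ℝ} {L : ℝ} {U : Set V2} {S T : P3 → ℝ} {F : V2 → V2 → ℝ}
  {W : Set (V2 × V2)} {ϑ : V2 × V2 → ℝ}

theorem LocData.gm_eq (H : LocData f Φ L U S T F W ϑ) {x y : V2} (hq : (x, y) ∈ W)
    (i l : Fin 2) : gm F x y i l = aa S i (x, ϑ (x, y)) * aa S l (x, ϑ (x, y))
        + aa T i (x, ϑ (x, y)) * aa T l (x, ϑ (x, y)) := by
  unfold gm
  rw [H.F2_yy hq]
  ring

theorem LocData.dt_eq (H : LocData f Φ L U S T F W ϑ) {x y : V2} (hq : (x, y) ∈ W) :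
    dt F x y = wr S T (x, ϑ (x, y)) ^ 2 := by
  unfold dt
  simp only [H.gm_eq hq]
  unfold wr
  ring

theorem LocData.rh_eq (H : LocData f Φ L U S T F W ϑ) {x y : V2} (hq : (x, y) ∈ W)
    (l : Fin 2) : rh F x y l = (qu S (x, ϑ (x, y)) y * aa S l (x, ϑ (x, y))
        + qu T (x, ϑ (x, y)) y * aa T l (x, ϑ (x, y))) / 2 := by
  unfold rh qu li
  have h1 : uu S 1 0 = uu S 0 1 := uu_symm H.h.S_smooth 1 0
  have h2 : uu T 1 0 = uu T 0 1 := uu_symm H.h.T_smooth 1 0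
  simp only [Fin.sum_univ_two, H.F2_yx hq, H.F2_x hq]
  fin_cases l <;> simp only [Fin.mk_one, Fin.zero_eta, h1, h2] <;> ring

theorem LocData.GG_eq (H : LocData f Φ L U S T F W ϑ) {x y : V2} (hq : (x, y) ∈ W) :
    GG F x y = cr S T (qu S (x, ϑ (x, y)) y / 2) (qu T (x, ϑ (x, y)) y / 2)
      (x, ϑ (x, y)) := by
  have hw : wr S T (x, ϑ (x, y)) ≠ 0 := (wr_pos H.h x _).ne'
  unfold GG cr
  simp only [H.dt_eq hq, H.gm_eq hq, H.rh_eq hq]
  ext i
  fin_cases i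
  · simp only [Fin.zero_eta, Matrix.cons_val_zero]
    rw [div_eq_div_iff (pow_ne_zero 2 hw) hw]
    unfold wr
    ring
  · simp only [Fin.mk_one, Matrix.cons_val_one, Matrix.cons_val_zero]
    rw [div_eq_div_iff (pow_ne_zero 2 hw) hw]
    unfold wr
    ring

/-- derivative of the solution of the linear system -/
theorem LocData.cr_deriv (H : LocData f Φ L U S T F W ϑ) {x y : V2} (hq : (x, y) ∈ W)
    {α β : V2 → ℝ} {α' β' : V2 →L[ℝ] ℝ} (hα : HasFDerivAt α α' y) (hβ : HasFDerivAt β β' y)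
    (i : Fin 2) :
    ∃ M : V2 →L[ℝ] ℝ, HasFDerivAt (fun u => cr S T (α u) (β u) (x, ϑ (x, u)) i) M y ∧
      ∀ j, M (ee j) = cr S T
        (α' (ee j) - β y * (aa T j (x, ϑ (x, y)) / F x y))
        (β' (ee j) + (α y - f (T (x, ϑ (x, y))) * β y) * (aa T j (x, ϑ (x, y)) / F x y))
        (x, ϑ (x, y)) i := by
  have hw : wr S T (x, ϑ (x, y)) ≠ 0 := (wr_pos H.h x _).ne'
  have hA := fun i => H.chain_y hq (aS_theta H.h i x (ϑ (x, y)))
  have hB := fun i => H.chain_y hq (aT_theta H.h i x (ϑ (x, y)))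
  have hW := H.chain_y hq (wr_theta H.h x (ϑ (x, y)))
  have hWi : HasFDerivAt (fun u => (wr S T (x, ϑ (x, u)))⁻¹) _ y :=
    (hasDerivAt_inv hw).comp_hasFDerivAt y hW
  fin_cases i
  · refine ⟨_, (((hα.mul (hB 1)).sub (hβ.mul (hA 1))).mul hWi).congr_of_eventuallyEq ?_, ?_⟩
    · refine Eventually.of_forall fun u => ?_
      simp [cr, div_eq_mul_inv]
    · intro j
      simp only [sub_apply, add_apply, smul_apply, smul_eq_mul, H.Ly_apply hq, cr,
        Fin.zero_eta, Matrix.cons_val_zero, Pi.sub_apply, Pi.mul_apply]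
      field_simp
      ring
  · refine ⟨_, (((hβ.mul (hA 0)).sub (hα.mul (hB 0))).mul hWi).congr_of_eventuallyEq ?_, ?_⟩
    · refine Eventually.of_forall fun u => ?_
      simp [cr, div_eq_mul_inv]
    · intro j
      simp only [sub_apply, add_apply, smul_apply, smul_eq_mul, H.Ly_apply hq, cr,
        Fin.mk_one, Matrix.cons_val_one, Matrix.cons_val_zero, Pi.sub_apply, Pi.mul_apply]
      field_simp
      ring

theorem LocData.lS (H : LocData f Φ L U S T F W ϑ) {x y : V2} (hq : (x, y) ∈ W) (l : Fin 2) :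
    ∃ M : V2 →L[ℝ] ℝ, HasFDerivAt (fun u => li S (x, ϑ (x, u)) u l) M y ∧
      ∀ j, M (ee j) = uu S l j (x, ϑ (x, y))
        + li T (x, ϑ (x, y)) y l * (aa T j (x, ϑ (x, y)) / F x y) := by
  have hU := fun j => H.chain_y hq (uS_theta H.h l j x (ϑ (x, y)))
  refine ⟨_, ((hU 0).mul (hasFDerivAt_pj 0 y)).add ((hU 1).mul (hasFDerivAt_pj 1 y)), ?_⟩
  intro j
  simp only [add_apply, smul_apply, smul_eq_mul, pj_apply, H.Ly_apply hq, li]
  fin_cases j <;> simp [ee] <;> ring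

theorem LocData.lT (H : LocData f Φ L U S T F W ϑ) {x y : V2} (hq : (x, y) ∈ W) (l : Fin 2) :
    ∃ M : V2 →L[ℝ] ℝ, HasFDerivAt (fun u => li T (x, ϑ (x, u)) u l) M y ∧
      ∀ j, M (ee j) = uu T l j (x, ϑ (x, y))
        + (f (T (x, ϑ (x, y))) * li T (x, ϑ (x, y)) y l - li S (x, ϑ (x, y)) y l)
          * (aa T j (x, ϑ (x, y)) / F x y) := by
  have hZ := H.Z_form hq
  have hV := fun j => H.chain_y hq (uT_theta H.h l j x (ϑ (x, y)))
  refine ⟨_, ((hV 0).mul (hasFDerivAt_pj 0 y)).add ((hV 1).mul (hasFDerivAt_pj 1 y)), ?_⟩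
  intro j
  simp only [add_apply, smul_apply, smul_eq_mul, pj_apply, H.Ly_apply hq, li]
  have e : uu T l 0 (x, ϑ (x, y)) * (ee j) 0 + uu T l 1 (x, ϑ (x, y)) * (ee j) 1
      = uu T l j (x, ϑ (x, y)) := by
    fin_cases j <;> simp [ee]
  linear_combination e + deriv f (T (x, ϑ (x, y))) * aa T l (x, ϑ (x, y))
    * (aa T j (x, ϑ (x, y)) / F x y) * hZ

theorem LocData.qS (H : LocData f Φ L U S T F W ϑ) {x y : V2} (hq : (x, y) ∈ W) :
    ∃ M : V2 →L[ℝ] ℝ, HasFDerivAt (fun u => qu S (x, ϑ (x, u)) u / 2) M y ∧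
      ∀ j, M (ee j) = li S (x, ϑ (x, y)) y j
        + qu T (x, ϑ (x, y)) y / 2 * (aa T j (x, ϑ (x, y)) / F x y) := by
  obtain ⟨M0, h0, e0⟩ := H.lS hq 0
  obtain ⟨M1, h1, e1⟩ := H.lS hq 1
  have hs : uu S 1 0 = uu S 0 1 := uu_symm H.h.S_smooth 1 0
  have h2 := (((hasFDerivAt_pj 0 y).mul h0).add ((hasFDerivAt_pj 1 y).mul h1)).const_mul
    (1 / 2 : ℝ)
  refine ⟨_, h2.congr_of_eventuallyEq (Eventually.of_forall fun u => ?_), ?_⟩
  · simp only [qu, Pi.mul_apply, Pi.add_apply]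
    ring
  · intro j
    simp only [add_apply, smul_apply, smul_eq_mul, pj_apply, e0, e1, li, qu, hs]
    fin_cases j <;> simp [ee, hs] <;> ring

theorem LocData.qT (H : LocData f Φ L U S T F W ϑ) {x y : V2} (hq : (x, y) ∈ W) :
    ∃ M : V2 →L[ℝ] ℝ, HasFDerivAt (fun u => qu T (x, ϑ (x, u)) u / 2) M y ∧
      ∀ j, M (ee j) = li T (x, ϑ (x, y)) y j
        + (f (T (x, ϑ (x, y))) * (qu T (x, ϑ (x, y)) y / 2) - qu S (x, ϑ (x, y)) y / 2)
          * (aa T j (x, ϑ (x, y)) / F x y) := by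
  obtain ⟨M0, h0, e0⟩ := H.lT hq 0
  obtain ⟨M1, h1, e1⟩ := H.lT hq 1
  have hs : uu T 1 0 = uu T 0 1 := uu_symm H.h.T_smooth 1 0
  have h2 := (((hasFDerivAt_pj 0 y).mul h0).add ((hasFDerivAt_pj 1 y).mul h1)).const_mul
    (1 / 2 : ℝ)
  refine ⟨_, h2.congr_of_eventuallyEq (Eventually.of_forall fun u => ?_), ?_⟩
  · simp only [qu, Pi.mul_apply, Pi.add_apply]
    ring
  · intro j
    simp only [add_apply, smul_apply, smul_eq_mul, pj_apply, e0, e1, li, qu, hs]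
    fin_cases j <;> simp [ee, hs] <;> ring

/-- first `y`-derivative of the spray coefficients -/
theorem LocData.G1 (H : LocData f Φ L U S T F W ϑ) {x y : V2} (hq : (x, y) ∈ W)
    (i l : Fin 2) : fderiv ℝ (fun u => GG F x u i) y (ee l)
      = cr S T (li S (x, ϑ (x, y)) y l) (li T (x, ϑ (x, y)) y l) (x, ϑ (x, y)) i := by
  obtain ⟨α', hα, eα⟩ := H.qS hq
  obtain ⟨β', hβ, eβ⟩ := H.qT hq
  obtain ⟨M, hM, hMj⟩ := H.cr_deriv hq hα hβ i
  have h1 : HasFDerivAt (fun u => GG F x u i) M y := by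
    refine hM.congr_of_eventuallyEq ?_
    filter_upwards [H.near_y hq] with u hu
    rw [H.GG_eq hu]
  rw [h1.fderiv, hMj, eα, eβ]
  congr 1
  all_goals first | rfl | ring

/-- second `y`-derivative of the spray coefficients -/
theorem LocData.G2 (H : LocData f Φ L U S T F W ϑ) {x y : V2} (hq : (x, y) ∈ W)
    (i l k : Fin 2) :
    fderiv ℝ (fun w => fderiv ℝ (fun u => GG F x u i) w (ee l)) y (ee k)
      = cr S T (uu S l k (x, ϑ (x, y))) (uu T l k (x, ϑ (x, y))) (x, ϑ (x, y)) i := by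
  obtain ⟨α', hα, eα⟩ := H.lS hq l
  obtain ⟨β', hβ, eβ⟩ := H.lT hq l
  obtain ⟨M, hM, hMj⟩ := H.cr_deriv hq hα hβ i
  have h1 : HasFDerivAt (fun w => fderiv ℝ (fun u => GG F x u i) w (ee l)) M y := by
    refine hM.congr_of_eventuallyEq ?_
    filter_upwards [H.near_y hq] with u hu
    rw [H.G1 hu]
  rw [h1.fderiv, hMj, eα, eβ]
  congr 1
  all_goals first | rfl | ring

/-- third `y`-derivative of the spray coefficients -/
theorem LocData.G3 (H : LocData f Φ L U S T F W ϑ) {x y : V2} (hq : (x, y) ∈ W)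
    (i l k j : Fin 2) :
    fderiv ℝ (fun w₂ => fderiv ℝ (fun w₁ => fderiv ℝ (fun u => GG F x u i) w₁ (ee l))
      w₂ (ee k)) y (ee j)
      = cr S T 0 (deriv f (T (x, ϑ (x, y))) * aa T k (x, ϑ (x, y)) * aa T l (x, ϑ (x, y))
          * (aa T j (x, ϑ (x, y)) / F x y)) (x, ϑ (x, y)) i := by
  have hα := H.chain_y hq (uS_theta H.h l k x (ϑ (x, y)))
  have hβ := H.chain_y hq (uT_theta H.h l k x (ϑ (x, y)))
  obtain ⟨M, hM, hMj⟩ := H.cr_deriv hq hα hβ i
  have h1 : HasFDerivAt (fun w₂ => fderiv ℝ (fun w₁ => fderiv ℝ (fun u => GG F x u i) w₁ (ee l))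
      w₂ (ee k)) M y := by
    refine hM.congr_of_eventuallyEq ?_
    filter_upwards [H.near_y hq] with u hu
    rw [H.G2 hu]
  rw [h1.fderiv, hMj]
  simp only [smul_apply, smul_eq_mul, H.Ly_apply hq]
  congr 1
  · ring
  · ring

end

end

end Pool.Agent.W339.Uni
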