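import Pool.Agent.W339.Uni.Calc

/-!
# Landsberg unicorn: local calculus of the Finsler function
-/

set_option autoImplicit false

open Set Filter Topology
open scoped ContDiff

namespace Pool.Agent.W339.Uni

noncomputable section

open Pool.Agent.W668.Uni (PerData dx)

/-- coordinate projection -/
def pj (i : Fin 2) : V2 →L[ℝ] ℝ := ContinuousLinearMap.proj i

@[simp] theorem pj_apply (i : Fin 2) (y : V2) : pj i y = y i := rfl

theorem hasFDerivAt_pj (i : Fin 2) (y : V2) : HasFDerivAt (fun u : V2 => u i) (pj i) y :=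
  (pj i).hasFDerivAt

/-- The local situation: `ϑ` is a smooth maximiser on the open set `W`. -/
structure LocData (f Φ : ℝ → ℝ) (L : ℝ) (U : Set V2) (S T : P3 → ℝ) (F : V2 → V2 → ℝ)
    (W : Set (V2 × V2)) (ϑ : V2 × V2 → ℝ) : Prop where
  h : PerData f Φ L U S T
  opn : IsOpen W
  smooth : ContDiffOn ℝ ∞ ϑ W
  F_eq : ∀ q ∈ W, F q.1 q.2 = dx S q.1 (ϑ q) q.2
  zero : ∀ q ∈ W, dx T q.1 (ϑ q) q.2 = 0
  pos : ∀ q ∈ W, 0 < F q.1 q.2

section

variable {f Φ : ℝ → ℝ} {L : ℝ} {U : Set V2} {S T : P3 → ℝ} {F : V2 → V2 → ℝ}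
  {W : Set (V2 × V2)} {ϑ : V2 × V2 → ℝ}

theorem dx_eq (S : P3 → ℝ) (x : V2) (θ : ℝ) (y : V2) :
    dx S x θ y = y 0 * aa S 0 (x, θ) + y 1 * aa S 1 (x, θ) := by
  have := dv_add_dir S (x, θ) y
  exact this

theorem LocData.F_form (H : LocData f Φ L U S T F W ϑ) {x y : V2} (hq : (x, y) ∈ W) :
    F x y = y 0 * aa S 0 (x, ϑ (x, y)) + y 1 * aa S 1 (x, ϑ (x, y)) := by
  rw [← dx_eq]
  exact H.F_eq _ hq

theorem LocData.Z_form (H : LocData f Φ L U S T F W ϑ) {x y : V2} (hq : (x, y) ∈ W) :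
    y 0 * aa T 0 (x, ϑ (x, y)) + y 1 * aa T 1 (x, ϑ (x, y)) = 0 := by
  rw [← dx_eq]
  exact H.zero _ hq

theorem LocData.diff (H : LocData f Φ L U S T F W ϑ) {q : V2 × V2} (hq : q ∈ W) :
    DifferentiableAt ℝ ϑ q :=
  ((H.smooth.contDiffAt (H.opn.mem_nhds hq)).differentiableAt (by simp))

theorem LocData.near_y (H : LocData f Φ L U S T F W ϑ) {x y : V2} (hq : (x, y) ∈ W) :
    ∀ᶠ u in 𝓝 y, (x, u) ∈ W := by
  have h1 : Continuous (fun u : V2 => (x, u)) := by fun_prop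
  exact (H.opn.preimage h1).mem_nhds hq

theorem LocData.near_x (H : LocData f Φ L U S T F W ϑ) {x y : V2} (hq : (x, y) ∈ W) :
    ∀ᶠ z in 𝓝 x, (z, y) ∈ W := by
  have h1 : Continuous (fun z : V2 => (z, y)) := by fun_prop
  exact (H.opn.preimage h1).mem_nhds hq

/-- derivative of `ϑ` in `y` -/
def Ly (ϑ : V2 × V2 → ℝ) (x y : V2) : V2 →L[ℝ] ℝ :=
  (fderiv ℝ ϑ (x, y)).comp (ContinuousLinearMap.inr ℝ V2 V2)

/-- derivative of `ϑ` in `x` -/
def Lx (ϑ : V2 × V2 → ℝ) (x y : V2) : V2 →L[ℝ] ℝ :=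
  (fderiv ℝ ϑ (x, y)).comp (ContinuousLinearMap.inl ℝ V2 V2)

theorem LocData.hLy (H : LocData f Φ L U S T F W ϑ) {x y : V2} (hq : (x, y) ∈ W) :
    HasFDerivAt (fun u => ϑ (x, u)) (Ly ϑ x y) y :=
  ((H.diff hq).hasFDerivAt).comp y (hasFDerivAt_prodMk_right x y)

theorem LocData.hLx (H : LocData f Φ L U S T F W ϑ) {x y : V2} (hq : (x, y) ∈ W) :
    HasFDerivAt (fun z => ϑ (z, y)) (Lx ϑ x y) x :=
  HasFDerivAt.comp (g := ϑ) (f := fun z : V2 => (z, y)) x ((H.diff hq).hasFDerivAt)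
    (hasFDerivAt_prodMk_left x y)

/-- chain rule in `y` -/
theorem LocData.chain_y (H : LocData f Φ L U S T F W ϑ) {x y : V2} (hq : (x, y) ∈ W)
    {K : P3 → ℝ} {K' : ℝ} (hK : HasDerivAt (fun s => K (x, s)) K' (ϑ (x, y))) :
    HasFDerivAt (fun u => K (x, ϑ (x, u))) (K' • Ly ϑ x y) y :=
  HasDerivAt.comp_hasFDerivAt (h₂ := fun s => K (x, s)) (f := fun u => ϑ (x, u)) y hK (H.hLy hq)

/-- chain rule in `x` -/
theorem LocData.chain_x (H : LocData f Φ L U S T F W ϑ) {x y : V2} (hq : (x, y) ∈ W)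
    {K : P3 → ℝ} (hK : ContDiff ℝ ∞ K) :
    HasFDerivAt (fun z => K (z, ϑ (z, y)))
      ((fderiv ℝ K (x, ϑ (x, y))).comp
        ((ContinuousLinearMap.id ℝ V2).prod (Lx ϑ x y))) x := by
  have h1 : HasFDerivAt K (fderiv ℝ K (x, ϑ (x, y))) (x, ϑ (x, y)) :=
    (hK.differentiable (by simp) _).hasFDerivAt
  have h2 : HasFDerivAt (fun z : V2 => (z, ϑ (z, y)))
      ((ContinuousLinearMap.id ℝ V2).prod (Lx ϑ x y)) x :=
    (hasFDerivAt_id x).prodMk (H.hLx hq)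
  exact HasFDerivAt.comp (g := K) (f := fun z : V2 => (z, ϑ (z, y))) x h1 h2

theorem chain_x_apply (K : P3 → ℝ) (p : P3) (M : V2 →L[ℝ] ℝ) (ξ : V2) :
    ((fderiv ℝ K p).comp ((ContinuousLinearMap.id ℝ V2).prod M)) ξ
      = dv K (ξ, 0) p + M ξ * dv K (0, 1) p := by
  have e : ((ξ, M ξ) : P3) = ((ξ, 0) : P3) + M ξ • ((0, 1) : P3) := by
    ext i
    · simp
    · simp
  change fderiv ℝ K p (ξ, M ξ) = _
  rw [e, map_add, map_smul]
  rfl

/-- `dϑ = B/F` in `y` -/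
theorem LocData.Ly_apply (H : LocData f Φ L U S T F W ϑ) {x y : V2} (hq : (x, y) ∈ W)
    (j : Fin 2) : Ly ϑ x y (ee j) = aa T j (x, ϑ (x, y)) / F x y := by
  have hF := H.F_form hq
  have hZ := H.Z_form hq
  have hpos := H.pos _ hq
  have h0 := H.chain_y hq (aT_theta H.h 0 x (ϑ (x, y)))
  have h1 := H.chain_y hq (aT_theta H.h 1 x (ϑ (x, y)))
  have h2 := ((hasFDerivAt_pj 0 y).mul h0).add ((hasFDerivAt_pj 1 y).mul h1)
  have h3 : HasFDerivAt (fun u : V2 => u 0 * aa T 0 (x, ϑ (x, u)) + u 1 * aa T 1 (x, ϑ (x, u)))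
      (0 : V2 →L[ℝ] ℝ) y := by
    refine (hasFDerivAt_const (0 : ℝ) y).congr_of_eventuallyEq ?_
    filter_upwards [H.near_y hq] with u hu
    exact H.Z_form hu
  have h4 := h2.unique h3
  have h5 := congrArg (fun M : V2 →L[ℝ] ℝ => M (ee j)) h4
  simp only [add_apply, smul_apply, smul_eq_mul,
    pj_apply, zero_apply] at h5
  rw [eq_div_iff hpos.ne']
  simp only at hpos
  have e0 : (ee j) 0 * aa T 0 (x, ϑ (x, y)) + (ee j) 1 * aa T 1 (x, ϑ (x, y))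
      = aa T j (x, ϑ (x, y)) := by
    fin_cases j <;> simp [ee]
  rw [← e0]
  linear_combination -h5 + Ly ϑ x y (ee j) * f (T (x, ϑ (x, y))) * hZ
    + Ly ϑ x y (ee j) * hF

/-- `dϑ` in `x` -/
theorem LocData.Lx_apply (H : LocData f Φ L U S T F W ϑ) {x y : V2} (hq : (x, y) ∈ W)
    (k : Fin 2) : Lx ϑ x y (ee k)
      = (y 0 * uu T 0 k (x, ϑ (x, y)) + y 1 * uu T 1 k (x, ϑ (x, y))) / F x y := by
  have hF := H.F_form hq
  have hZ := H.Z_form hq
  have hpos := H.pos _ hq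
  have h0 := H.chain_x hq (aa_smooth H.h.T_smooth 0)
  have h1 := H.chain_x hq (aa_smooth H.h.T_smooth 1)
  have h2 := (h0.const_mul (y 0)).add (h1.const_mul (y 1))
  have h3 : HasFDerivAt (fun z : V2 => y 0 * aa T 0 (z, ϑ (z, y)) + y 1 * aa T 1 (z, ϑ (z, y)))
      (0 : V2 →L[ℝ] ℝ) x := by
    refine (hasFDerivAt_const (0 : ℝ) x).congr_of_eventuallyEq ?_
    filter_upwards [H.near_x hq] with z hz
    exact H.Z_form hz
  have h4 := h2.unique h3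
  have h5 := congrArg (fun M : V2 →L[ℝ] ℝ => M (ee k)) h4
  simp only [add_apply, smul_apply, smul_eq_mul,
    zero_apply, chain_x_apply, dvaT H.h] at h5
  rw [eq_div_iff hpos.ne']
  simp only at hpos
  unfold uu
  linear_combination -h5 + Lx ϑ x y (ee k) * f (T (x, ϑ (x, y))) * hZ
    + Lx ϑ x y (ee k) * hF

/-- `y`-derivative of `F` -/
theorem LocData.F_y (H : LocData f Φ L U S T F W ϑ) {x y : V2} (hq : (x, y) ∈ W) :
    HasFDerivAt (fun u => F x u)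
      (aa S 0 (x, ϑ (x, y)) • pj 0 + aa S 1 (x, ϑ (x, y)) • pj 1) y := by
  have hZ := H.Z_form hq
  have h0 := H.chain_y hq (aS_theta H.h 0 x (ϑ (x, y)))
  have h1 := H.chain_y hq (aS_theta H.h 1 x (ϑ (x, y)))
  have h2 := ((hasFDerivAt_pj 0 y).mul h0).add ((hasFDerivAt_pj 1 y).mul h1)
  have h3 : HasFDerivAt (fun u => F x u)
      (y 0 • aa T 0 (x, ϑ (x, y)) • Ly ϑ x y + aa S 0 (x, ϑ (x, y)) • pj 0 +
      (y 1 • aa T 1 (x, ϑ (x, y)) • Ly ϑ x y + aa S 1 (x, ϑ (x, y)) • pj 1)) y := by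
    refine h2.congr_of_eventuallyEq ?_
    filter_upwards [H.near_y hq] with u hu
    exact H.F_form hu
  have e : (y 0 • aa T 0 (x, ϑ (x, y)) • Ly ϑ x y + aa S 0 (x, ϑ (x, y)) • pj 0 +
      (y 1 • aa T 1 (x, ϑ (x, y)) • Ly ϑ x y + aa S 1 (x, ϑ (x, y)) • pj 1))
      = aa S 0 (x, ϑ (x, y)) • pj 0 + aa S 1 (x, ϑ (x, y)) • pj 1 := by
    ext v
    simp only [add_apply, smul_apply, smul_eq_mul, pj_apply]
    linear_combination (Ly ϑ x y v) * hZ
  rwa [e] at h3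

/-- `x`-derivative of `F` -/
theorem LocData.F_x (H : LocData f Φ L U S T F W ϑ) {x y : V2} (hq : (x, y) ∈ W) :
    ∃ M : V2 →L[ℝ] ℝ, HasFDerivAt (fun z => F z y) M x ∧ ∀ k, M (ee k)
      = y 0 * uu S 0 k (x, ϑ (x, y)) + y 1 * uu S 1 k (x, ϑ (x, y)) := by
  have hZ := H.Z_form hq
  have h0 := H.chain_x hq (aa_smooth H.h.S_smooth 0)
  have h1 := H.chain_x hq (aa_smooth H.h.S_smooth 1)
  have h2 := (h0.const_mul (y 0)).add (h1.const_mul (y 1))
  refine ⟨_, h2.congr_of_eventuallyEq ?_, ?_⟩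
  · filter_upwards [H.near_x hq] with z hz
    exact H.F_form hz
  · intro k
    simp only [add_apply, smul_apply, smul_eq_mul, chain_x_apply, dvaS H.h]
    unfold uu
    linear_combination (Lx ϑ x y (ee k)) * hZ

theorem LocData.F2_y (H : LocData f Φ L U S T F W ϑ) {x y : V2} (hq : (x, y) ∈ W)
    (i : Fin 2) : fderiv ℝ (fun u => F x u ^ 2) y (ee i)
      = 2 * F x y * aa S i (x, ϑ (x, y)) := by
  have h1 := ((H.F_y hq).pow 2).fderiv
  rw [h1]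
  simp only [add_apply, smul_apply, smul_eq_mul, pj_apply]
  fin_cases i <;> simp [ee]

theorem LocData.F2_x (H : LocData f Φ L U S T F W ϑ) {x y : V2} (hq : (x, y) ∈ W)
    (k : Fin 2) : fderiv ℝ (fun z => F z y ^ 2) x (ee k)
      = 2 * F x y * (y 0 * uu S 0 k (x, ϑ (x, y)) + y 1 * uu S 1 k (x, ϑ (x, y))) := by
  obtain ⟨M, hM, hMk⟩ := H.F_x hq
  have h1 := (hM.pow 2).fderiv
  rw [h1]
  simp only [smul_apply, smul_eq_mul, hMk]
  ring

/-- the fundamental tensor -/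
theorem LocData.F2_yy (H : LocData f Φ L U S T F W ϑ) {x y : V2} (hq : (x, y) ∈ W)
    (i l : Fin 2) : fderiv ℝ (fun w => fderiv ℝ (fun u => F x u ^ 2) w (ee i)) y (ee l)
      = 2 * (aa S i (x, ϑ (x, y)) * aa S l (x, ϑ (x, y))
        + aa T i (x, ϑ (x, y)) * aa T l (x, ϑ (x, y))) := by
  have hpos := H.pos _ hq
  simp only at hpos
  have h0 := ((H.F_y hq).const_mul (2 : ℝ)).mul (H.chain_y hq (aS_theta H.h i x (ϑ (x, y))))
  have h1 := h0.congr_of_eventuallyEq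
    (f₁ := fun w : V2 => fderiv ℝ (fun u : V2 => F x u ^ 2) w (ee i)) (by
    filter_upwards [H.near_y hq] with u hu
    exact H.F2_y hu i)
  rw [h1.fderiv]
  simp only [add_apply, smul_apply, smul_eq_mul, pj_apply, H.Ly_apply hq]
  have e0 : aa S 0 (x, ϑ (x, y)) * (ee l) 0 + aa S 1 (x, ϑ (x, y)) * (ee l) 1
      = aa S l (x, ϑ (x, y)) := by
    fin_cases l <;> simp [ee]
  rw [e0]
  field_simp
  ring

/-- mixed derivative -/
theorem LocData.F2_yx (H : LocData f Φ L U S T F W ϑ) {x y : V2} (hq : (x, y) ∈ W)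
    (l k : Fin 2) : fderiv ℝ (fun z => fderiv ℝ (fun u => F z u ^ 2) y (ee l)) x (ee k)
      = 2 * (y 0 * uu S 0 k (x, ϑ (x, y)) + y 1 * uu S 1 k (x, ϑ (x, y)))
          * aa S l (x, ϑ (x, y))
        + 2 * F x y * uu S l k (x, ϑ (x, y))
        + 2 * (y 0 * uu T 0 k (x, ϑ (x, y)) + y 1 * uu T 1 k (x, ϑ (x, y)))
          * aa T l (x, ϑ (x, y)) := by
  have hpos := H.pos _ hq
  simp only at hpos
  obtain ⟨M, hM, hMk⟩ := H.F_x hq
  have h0 := (hM.const_mul (2 : ℝ)).mul (H.chain_x hq (aa_smooth H.h.S_smooth l))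
  have h1 := h0.congr_of_eventuallyEq
    (f₁ := fun z : V2 => fderiv ℝ (fun u : V2 => F z u ^ 2) y (ee l)) (by
    filter_upwards [H.near_x hq] with z hz
    exact H.F2_y hz l)
  rw [h1.fderiv]
  simp only [add_apply, smul_apply, smul_eq_mul, hMk, chain_x_apply, dvaS H.h, H.Lx_apply hq]
  have e1 : dv (aa S l) (ee k, 0) (x, ϑ (x, y)) = uu S l k (x, ϑ (x, y)) := rfl
  rw [e1]
  field_simp
  ring

end

end

end Pool.Agent.W339.Uni
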